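import Mathlib
import Pool.Agent.Helper428.UMRMain

set_option autoImplicit false

namespace Pool.Agent.Results.MP_56e01c_co.NoneMTwo

open Classical
open Pool.Agent.Helper428.UMR

/-- Let `n ≥ 7` and `m = m₂(n) = (n² - 3n + 2) / 2`. If `G` is a uniformly most reliable graph with
`n` vertices and `m` edges then `n ≡ 2 (mod 3)` and the complement `H` of `G` is the disjoint union
of `(n - 2) / 3` triangles and one edge: every vertex has degree one or two in `H`, exactly
`n - 2` of them have degree two, and adjacency in `H` is transitive. In particular, for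
`n ≥ 7` with `n ≢ 2 (mod 3)` there is no uniformly most reliable graph with `m₂(n)` edges. -/
theorem result (n m : ℕ) (hn : 7 ≤ n) (hm2 : 2 * m + 3 * n = n ^ 2 + 2)
    (G H : SimpleGraph (Fin n)) (hm : G.edgeFinset.card = m) (hG : IsUMR G) (hH : H = Gᶜ) :
    n % 3 = 2 ∧
    (∀ v, H.degree v = 1 ∨ H.degree v = 2) ∧
    (Finset.univ.filter (fun v => H.degree v = 2)).card = n - 2 ∧
    (∀ u v w, H.Adj u v → H.Adj v w → u ≠ w → H.Adj u w) := by
  have hc : ∀ u v, H.Adj u v ↔ u ≠ v ∧ ¬ G.Adj u v := by
    intro u v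
    rw [hH]
    exact SimpleGraph.compl_adj _ _ _
  have h1 := edges_add hc
  rw [hm] at h1
  have hedge : 2 * H.edgeFinset.card = n + (n - 2) := by
    have : 2 * H.edgeFinset.card + 2 = n + n := by nlinarith
    omega
  obtain ⟨h5, h6, h7⟩ := structure_full hc hG (n - 2) (by omega) hedge (by omega) (by omega)
  have h8 := three_dvd h7
  rw [h6] at h8
  exact ⟨by omega, h5, h6, h7⟩

end Pool.Agent.Results.MP_56e01c_co.NoneMTwo
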